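import Mathlib

set_option autoImplicit false

namespace Pool.Agent.Results.MP_325f40_co.Icosa

/-- the 2-distance graph -/
def dist2 {V : Type} (G : SimpleGraph V) : SimpleGraph V where
  Adj u v := G.edist u v = 2
  symm := ⟨fun _ _ h => by rw [SimpleGraph.edist_comm]; exact h⟩
  loopless := ⟨fun _ h => by simp at h⟩

/-- the icosahedron -/
def G : SimpleGraph (Fin 12) := SimpleGraph.fromRel fun u v => (u, v) ∈
  [(0, 1), (0, 2), (0, 3), (0, 4), (0, 5), (1, 2), (1, 5), (1, 6), (1, 7), (2, 3), (2, 7), (2, 8),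
   (3, 4), (3, 8), (3, 9), (4, 5), (4, 9), (4, 10), (5, 6), (5, 10), (6, 7), (6, 10), (6, 11),
   (7, 8), (7, 11), (8, 9), (8, 11), (9, 10), (9, 11), (10, 11)]

instance : DecidableRel G.Adj := fun u v => by unfold G; infer_instance

def p : Fin 12 ≃ Fin 12 where
  toFun := ![0, 6, 8, 10, 7, 9, 2, 4, 1, 3, 5, 11]
  invFun := ![0, 8, 6, 9, 7, 10, 1, 4, 2, 5, 3, 11]
  left_inv := by decide
  right_inv := by decide

lemma key : ∀ u v, G.Adj (p u) (p v) ↔ u ≠ v ∧ ¬ G.Adj u v ∧ ∃ w, G.Adj u w ∧ G.Adj v w := by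
  decide +kernel

theorem result : ∃ (k n : ℕ) (G : SimpleGraph (Fin n)) (_ : DecidableRel G.Adj),
    Odd k ∧ 0 < n ∧ G.Connected ∧ G.IsRegularOfDegree k ∧ Nonempty (dist2 G ≃g G) := by
  refine ⟨5, 12, G, inferInstance, by decide, by norm_num, by decide +kernel,
    by unfold SimpleGraph.IsRegularOfDegree; decide +kernel, ⟨⟨p, fun {u v} => ?_⟩⟩⟩
  rw [key]
  exact SimpleGraph.edist_eq_two_iff.symm

end Pool.Agent.Results.MP_325f40_co.Icosa
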